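import Pool.Agent.W2helper84.TN.Thin

/-!
# The absolute toral rank
-/

set_option autoImplicit false

namespace Pool.Agent.W2helper84.TN

open Pool.Agent.Results.MP_9adac4_al.SimpleLine

attribute [local instance 100] LieRing.ofAssociativeRing

variable (K : Type*) [Field K] [CharP K 2]

omit [CharP K 2] in
theorem rk_aux {V W : Type*} [AddCommGroup V] [Module K V] [FiniteDimensional K V]
    [AddCommGroup W] [Module K W]
    (N : Submodule K V) (T : Submodule K W) (r : V →ₗ[K] W) (h : ∀ A ∈ N, r A ∈ T)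
    (hs : ∀ f ∈ T, ∃ A ∈ N, r A = f) (hN : Module.finrank K N ≤ 5)
    (h1 : ∃ A ∈ N, A ≠ 0 ∧ r A = 0) : Module.finrank K T ≤ 4 := by
  let g : N →ₗ[K] T := (r.comp N.subtype).codRestrict T fun A => h A.1 A.2
  have hg : Function.Surjective g := by
    rintro ⟨f, hf⟩
    obtain ⟨A, hA, rfl⟩ := hs f hf
    exact ⟨⟨A, hA⟩, Subtype.ext rfl⟩
  have hrk := LinearMap.finrank_range_add_finrank_ker g
  rw [LinearMap.range_eq_top.2 hg, finrank_top] at hrk
  obtain ⟨A, hA, hA0, hrA⟩ := h1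
  have hpos : 0 < Module.finrank K (LinearMap.ker g) := by
    rw [Module.finrank_pos_iff_exists_ne_zero]
    refine ⟨⟨⟨A, hA⟩, ?_⟩, ?_⟩
    · rw [LinearMap.mem_ker]
      exact Subtype.ext hrA
    · intro h
      exact hA0 (congrArg (fun z : LinearMap.ker g => z.1.1) h)
  omega

omit [CharP K 2] in
theorem key_symm (A B : Sym K) (i j : Fin 6) : (A.1 * B.1) i j = (B.1 * A.1) j i := by
  rw [Matrix.mul_apply, Matrix.mul_apply]
  exact Finset.sum_congr rfl fun k _ => by rw [A.2 i k, B.2 k j, mul_comm]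

/-- the commutator of two symmetric matrices -/
def com (A B : Sym K) : Sym K := ⟨A.1 * B.1 - B.1 * A.1, fun i j => by
  rw [Matrix.sub_apply, Matrix.sub_apply, key_symm K A B i j, ← key_symm K A B j i]
  have e1 := add_self_eq ((A.1 * B.1) j i)
  have e2 := add_self_eq ((B.1 * A.1) j i)
  linear_combination e2 - e1⟩

theorem rho_com (A B : Sym K) : rho K (com K A B) = rho K A * rho K B - rho K B * rho K A := by
  ext x : 2
  rw [rho_coe]
  change _ = (rho K A (rho K B x)).1 - (rho K B (rho K A x)).1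
  rw [rho_coe, rho_coe, rho_coe, rho_coe, com]
  noncomm_ring

theorem tor (hCOM : StmCOM K) (hADS : StmADS K) (hLIE : StmLIE K) (hKER : StmKER K) :
    StmTOR K := by
  intro hK T hT
  let tr : Sym K →ₗ[K] K := (Matrix.traceLinearMap (Fin 6) K K) ∘ₗ (Sym K).subtype
  let N0 : Submodule K (Sym K) := (T.comap (rho K)) ⊓ LinearMap.ker tr
  have hN0 : ∀ A : Sym K, A ∈ N0 ↔ rho K A ∈ T ∧ A.1.trace = 0 := by
    intro A
    simp only [N0, Submodule.mem_inf, Submodule.mem_comap, LinearMap.mem_ker]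
    rfl
  have hfin := hCOM hK (N0.map (Sym K).subtype) (by
      rintro _ ⟨A, hA, rfl⟩ _ ⟨B, hB, rfl⟩
      have h1 := hT.2.1 _ ((hN0 A).1 hA).1 _ ((hN0 B).1 hB).1
      have h2 : rho K (com K A B) = 0 := by rw [rho_com, h1, sub_self]
      obtain ⟨c, hc⟩ := hKER _ h2
      have h3 := congrFun (congrFun hc 0) 0
      have h4 : (com K A B).1 0 0 = 0 := by
        change (A.1 * B.1 - B.1 * A.1) 0 0 = 0
        rw [Matrix.sub_apply, key_symm K A B 0 0, sub_self]
      rw [h4] at h3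
      have h5 : c = 0 := by simpa using h3.symm
      rw [h5, zero_smul] at hc
      exact sub_eq_zero.1 hc) (by
      rintro _ ⟨A, hA, rfl⟩
      exact hADS hK A (hT.2.2 _ ((hN0 A).1 hA).1)) (by
      rintro _ ⟨A, hA, rfl⟩
      exact ((hN0 A).1 hA).2)
  rw [(LinearEquiv.finrank_eq (Submodule.equivMapOfInjective (Sym K).subtype
    (Sym K).injective_subtype N0)).symm] at hfin
  have h1 : (1 : Mat K) ∈ Sym K := fun i j => by
    by_cases h : i = j
    · subst h; rfl
    · rw [Matrix.one_apply_ne h, Matrix.one_apply_ne (Ne.symm h)]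
  have hr1 : rho K ⟨1, h1⟩ = 0 := by
    ext x : 2
    rw [rho_coe]
    simp
  have ht1 : (1 : Mat K).trace = 0 := by
    rw [Matrix.trace_one, Fintype.card_fin]
    have := two_eq (K := K)
    push_cast
    linear_combination 3 * this
  refine rk_aux K N0 T (rho K) (fun A hA => ((hN0 A).1 hA).1) ?_ hfin
    ⟨⟨1, h1⟩, (hN0 _).2 ⟨by rw [hr1]; exact T.zero_mem, ht1⟩, ?_, hr1⟩
  · intro f hf
    obtain ⟨A, hA, rfl⟩ := hLIE f (hT.1 hf)
    exact ⟨A, (hN0 A).2 ⟨hf, hA⟩, rfl⟩
  · intro h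
    have h2 := congrArg (fun z : Sym K => z.1 0 0) h
    simp at h2

end Pool.Agent.W2helper84.TN
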