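import Pool.Agent.W2helper84.TN.Stm

/-!
# The basis of the alternating matrices, the torus and its weights
-/

set_option autoImplicit false

namespace Pool.Agent.W2helper84.TN

open Pool.Agent.Results.MP_9adac4_al.SimpleLine

attribute [local instance 100] LieRing.ofAssociativeRing

variable (K : Type*) [Field K] [CharP K 2]

/-- The coordinates of an alternating matrix. -/
def coordEquiv : Alt K ≃ₗ[K] (P → K) where
  toFun x := fun p => x.1 p.1.1 p.1.2
  map_add' x y := rfl
  map_smul' c x := rfl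
  invFun g := ⟨fun i j => if h : i < j then g ⟨(i, j), h⟩ else
      if h' : j < i then g ⟨(j, i), h'⟩ else 0, by
    refine ⟨fun i j => ?_, fun i => ?_⟩
    · rcases lt_trichotomy i j with h | h | h
      · simp [h, h.asymm]
      · subst h; rfl
      · simp [h, h.asymm]
    · simp⟩
  left_inv x := by
    apply Subtype.ext
    funext i j
    rcases lt_trichotomy i j with h | h | h
    · simp [h]
    · subst h; simp [x.2.2 i]
    · simp [h, h.asymm, x.2.1 i j]
  right_inv g := by
    funext p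
    simp [p.2]

theorem coordEquiv_E (p : P) : coordEquiv K (E K p) = Pi.single p 1 := by
  funext q
  change (if (q.1.1 = p.1.1 ∧ q.1.2 = p.1.2) ∨ (q.1.2 = p.1.1 ∧ q.1.1 = p.1.2) then (1 : K) else 0) = _
  by_cases h : q = p
  · subst h; simp
  · rw [Pi.single_eq_of_ne h, if_neg]
    rintro (⟨h1, h2⟩ | ⟨h1, h2⟩)
    · exact h (Subtype.ext (Prod.ext h1 h2))
    · have := p.2
      rw [← h1, ← h2] at this
      exact absurd this q.2.asymm

/-- the basis `E_ij + E_ji` -/
noncomputable def bas : Module.Basis P K (Alt K) := Module.Basis.ofEquivFun (coordEquiv K)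

theorem bas_apply (p : P) : bas K p = E K p := by
  apply (coordEquiv K).injective
  rw [coordEquiv_E]
  simp [bas]

/-- the embedding of the first four indices -/
def emb (k : Fin 4) : Fin 6 := k.castSucc.castSucc

/-- The weight of `E_ij + E_ji`. -/
def wt0 (p : P) : Fin 4 → ZMod 2 := fun k =>
  (if emb k = p.1.1 ∨ emb k = p.1.2 then 1 else 0) + (if 4 = p.1.1 ∨ 4 = p.1.2 then 1 else 0)

theorem wt0_ne : ∀ p : P, wt0 p ≠ 0 := by decide

/-- The weight of `E_ij + E_ji`. -/
def wt (p : P) : {α : Fin 4 → ZMod 2 // α ≠ 0} := ⟨wt0 p, wt0_ne p⟩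

theorem wt_bij : Function.Bijective wt := by decide

/-- the bijection of the pairs with the nonzero weights -/
noncomputable def wtEquiv : P ≃ {α : Fin 4 → ZMod 2 // α ≠ 0} := Equiv.ofBijective wt wt_bij

/-- the basis indexed by the weights -/
noncomputable def basW : Module.Basis {α : Fin 4 → ZMod 2 // α ≠ 0} K (Alt K) :=
  (bas K).reindex wtEquiv

theorem basW_wt (p : P) : basW K (wt p) = E K p := by
  have h : wt p = wtEquiv p := rfl
  rw [basW, h, Module.Basis.reindex_apply, Equiv.symm_apply_apply, bas_apply]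

/-- diagonal matrix units -/
def dg (k : Fin 4) : Fin 6 → K := fun i => if i = emb k ∨ i = 4 then 1 else 0

/-- `E_kk + E_44` -/
def D (k : Fin 4) : Sym K := ⟨Matrix.diagonal (dg K k), fun i j => by
  by_cases h : i = j
  · subst h; rfl
  · rw [Matrix.diagonal_apply_ne _ h, Matrix.diagonal_apply_ne _ (Ne.symm h)]⟩

/-- the torus elements -/
def tt (k : Fin 4) : Module.End K (Alt K) := rho K (D K k)

theorem tt_coe (k : Fin 4) (x : Alt K) (i j : Fin 6) :
    (tt K k x).1 i j = (dg K k i - dg K k j) * x.1 i j := by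
  rw [tt, rho_coe, D, Matrix.sub_apply, Matrix.diagonal_mul, Matrix.mul_diagonal]
  ring

theorem tt_E (k : Fin 4) (p : P) : tt K k (E K p) = if wt0 p k = 0 then 0 else E K p := by
  have h1 : (-1 : K) = 1 := by
    have := two_eq (K := K)
    linear_combination -this
  have h : dg K k p.1.1 - dg K k p.1.2 = if wt0 p k = 0 then 0 else 1 := by
    have hd : ∀ (p : P) (k : Fin 4), (wt0 p k = 0) ↔
        ((p.1.1 = emb k ∨ p.1.1 = 4) ↔ (p.1.2 = emb k ∨ p.1.2 = 4)) := by decide
    unfold dg
    by_cases a : (p.1.1 = emb k ∨ p.1.1 = 4) <;> by_cases b : (p.1.2 = emb k ∨ p.1.2 = 4)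
    · rw [if_pos a, if_pos b, if_pos ((hd p k).2 (by tauto)), sub_self]
    · rw [if_pos a, if_neg b, if_neg (fun hh => by have := (hd p k).1 hh; tauto), sub_zero]
    · rw [if_neg a, if_pos b, if_neg (fun hh => by have := (hd p k).1 hh; tauto), zero_sub, h1]
    · rw [if_neg a, if_neg b, if_pos ((hd p k).2 (by tauto)), sub_self]
  have h' : dg K k p.1.2 - dg K k p.1.1 = if wt0 p k = 0 then 0 else 1 := by
    rw [← neg_sub, h]
    split_ifs
    · simp
    · exact h1
  apply Subtype.ext
  funext i j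
  rw [tt_coe]
  have hE : (E K p).1 i j = if (i = p.1.1 ∧ j = p.1.2) ∨ (j = p.1.1 ∧ i = p.1.2) then 1 else 0 := rfl
  by_cases hc : (i = p.1.1 ∧ j = p.1.2) ∨ (j = p.1.1 ∧ i = p.1.2)
  · have hE1 : (E K p).1 i j = 1 := by rw [hE, if_pos hc]
    have hdd : dg K k i - dg K k j = if wt0 p k = 0 then 0 else 1 := by
      rcases hc with ⟨rfl, rfl⟩ | ⟨rfl, rfl⟩
      · exact h
      · exact h'
    rw [hdd, hE1]
    split_ifs
    · simp
    · simp [hE1]
  · have hE0 : (E K p).1 i j = 0 := by rw [hE, if_neg hc]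
    rw [hE0, mul_zero]
    split_ifs
    · rfl
    · exact hE0.symm

theorem tt_basW (k : Fin 4) (α : {α : Fin 4 → ZMod 2 // α ≠ 0}) :
    tt K k (basW K α) = if α.1 k = 0 then 0 else basW K α := by
  obtain ⟨p, rfl⟩ := wt_bij.2 α
  rw [basW_wt, tt_E]
  rfl

theorem rho_sq (A B : Sym K) (h : B.1 = A.1 * A.1) : rho K A * rho K A = rho K B := by
  ext x : 2
  rw [Module.End.mul_apply, rho_coe, rho_coe, rho_coe, h]
  have e : (A.1 * (A.1 * x.1 - x.1 * A.1) - (A.1 * x.1 - x.1 * A.1) * A.1) =
      A.1 * A.1 * x.1 - x.1 * (A.1 * A.1) - (2 : K) • (A.1 * x.1 * A.1 - x.1 * (A.1 * A.1)) := by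
    rw [two_smul]
    noncomm_ring
  rw [e, two_eq, zero_smul, sub_zero]

theorem rho_alt (x : Alt K) : LieAlgebra.ad K (Alt K) x = rho K ⟨x.1, x.2.1⟩ := by
  ext y : 2
  rfl

end Pool.Agent.W2helper84.TN
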