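import Mathlib

/-!
# Equivalence relations on six points
-/

set_option autoImplicit false

namespace Pool.Agent.W2helper84.TN

/-- pairs `i < j` of indices -/
abbrev P' : Type := {p : Fin 6 × Fin 6 // p.1 < p.2}

/-- the function with the given values -/
def rr (a1 : Fin 2) (a2 : Fin 3) (a3 : Fin 4) (a4 : Fin 5) (a5 : Fin 6) : Fin 6 → ℕ :=
  ![0, a1.1, a2.1, a3.1, a4.1, a5.1]

set_option maxRecDepth 100000 in
theorem comb_dec : ∀ (a1 : Fin 2) (a2 : Fin 3) (a3 : Fin 4) (a4 : Fin 5) (a5 : Fin 6),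
    (Finset.univ.filter fun p : P' => rr a1 a2 a3 a4 a5 p.1.1 = rr a1 a2 a3 a4 a5 p.1.2).card = 7 →
      ∃ p : P', rr a1 a2 a3 a4 a5 p.1.1 = rr a1 a2 a3 a4 a5 p.1.2 ∧
        ∀ k, k ≠ p.1.1 → k ≠ p.1.2 → rr a1 a2 a3 a4 a5 k ≠ rr a1 a2 a3 a4 a5 p.1.1 := by
  decide +kernel

end Pool.Agent.W2helper84.TN
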