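import Pool.Agent.W2helper84.TN.Comb
import Pool.Agent.W2helper53.TN.Grd

/-!
# Graded subalgebras of dimension seven are not perfect
-/

set_option autoImplicit false

namespace Pool.Agent.W2helper84.TN

open Pool.Agent.Results.MP_9adac4_al.SimpleLine Pool.Agent.W2helper53.TN

attribute [local instance 100] LieRing.ofAssociativeRing

variable (K : Type*) [Field K] [CharP K 2]

theorem prf (S : Set P) (M : LieSubalgebra K (Alt K))
    (hM : M.toSubmodule = Submodule.span K (E K '' S)) (h7 : Module.finrank K M = 7) :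
    ∃ p ∈ S, ∀ x ∈ M, ∀ y ∈ M, coef K p ⁅x, y⁆ = 0 := by
  classical
  let R : Fin 6 → Fin 6 → Prop := fun a b => a = b ∨ F K a b ∈ M
  have hrefl : ∀ a, R a a := fun a => Or.inl rfl
  have hsymm : ∀ a b, R a b → R b a := by
    rintro a b (h | h)
    · exact Or.inl h.symm
    · exact Or.inr (by rwa [F_symm])
  have htrans : ∀ a b c, R a b → R b c → R a c := by
    rintro a b c h1 h2
    by_cases hac : a = c
    · exact Or.inl hac
    rcases h1 with h1 | h1
    · rw [h1]; exact h2
    rcases h2 with h2 | h2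
    · rw [← h2]; exact Or.inr h1
    by_cases hab : a = b
    · rw [hab]; exact Or.inr h2
    by_cases hbc : b = c
    · rw [← hbc]; exact Or.inr h1
    exact Or.inr (F_trans K M a b c hab hbc hac h1 h2)
  let r : Fin 6 → Fin 6 := fun i => (Finset.univ.filter (R i)).min' ⟨i, by simp [hrefl]⟩
  have hr : ∀ i, R i (r i) := by
    intro i
    have := Finset.min'_mem (Finset.univ.filter (R i)) ⟨i, by simp [hrefl]⟩
    exact (Finset.mem_filter.1 this).2
  have hle : ∀ i, r i ≤ i := by
    intro i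
    exact Finset.min'_le _ _ (by simp [hrefl])
  have hiff : ∀ i j, R i j ↔ r i = r j := by
    intro i j
    constructor
    · intro h
      have e : Finset.univ.filter (R i) = Finset.univ.filter (R j) := by
        ext c
        simp only [Finset.mem_filter, Finset.mem_univ, true_and]
        exact ⟨fun h1 => htrans _ _ _ (hsymm _ _ h) h1, fun h1 => htrans _ _ _ h h1⟩
      simp only [r, e]
    · intro h
      have h1 := hr i
      rw [h] at h1
      exact htrans _ _ _ h1 (hsymm _ _ (hr j))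
  have hmem : ∀ p : P, p ∈ S ↔ r p.1.1 = r p.1.2 := by
    intro p
    rw [mem_iff K S M hM p, ← hiff]
    exact ⟨Or.inr, fun h => h.resolve_left p.2.ne⟩
  have hcard : (Finset.univ.filter fun p : P => r p.1.1 = r p.1.2).card = 7 := by
    have h1 : Module.finrank K M = Module.finrank K M.toSubmodule := rfl
    rw [h1, hM, Set.image_eq_range, finrank_span_eq_card, Fintype.card_subtype] at h7
    · rw [← h7]
      congr 1
      ext p
      simp [hmem p]
    · exact (linInd K).comp _ Subtype.val_injective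
  obtain ⟨a1, a2, a3, a4, a5, hrr⟩ : ∃ (a1 : Fin 2) (a2 : Fin 3) (a3 : Fin 4) (a4 : Fin 5)
      (a5 : Fin 6), ∀ i, rr a1 a2 a3 a4 a5 i = (r i : ℕ) := by
    refine ⟨⟨r 1, by have h : (r 1 : ℕ) ≤ 1 := hle 1; omega⟩,
      ⟨r 2, by have h : (r 2 : ℕ) ≤ 2 := hle 2; omega⟩,
      ⟨r 3, by have h : (r 3 : ℕ) ≤ 3 := hle 3; omega⟩,
      ⟨r 4, by have h : (r 4 : ℕ) ≤ 4 := hle 4; omega⟩,
      ⟨r 5, by have h : (r 5 : ℕ) ≤ 5 := hle 5; omega⟩, fun i => ?_⟩
    fin_cases i
    · have h : (r 0 : ℕ) ≤ 0 := hle 0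
      have h' : (r 0 : ℕ) = 0 := by omega
      exact h'.symm
    all_goals rfl
  obtain ⟨p, hp, hiso⟩ := comb_dec a1 a2 a3 a4 a5 (by
      rw [← hcard]
      simp only [hrr, Fin.val_inj])
  simp only [hrr, Fin.val_inj] at hp hiso
  have hpS : (p : P) ∈ S := (hmem p).2 hp
  refine ⟨p, hpS, fun x hx y hy => ?_⟩
  by_contra hne
  obtain ⟨c, hc⟩ := lie_entry K x y p.1.1 p.1.2 hne
  have hc' : F K p.1.1 c ∈ M ∧ p.1.1 ≠ c ∧ c ≠ p.1.2 := by
    rcases hc with ⟨h1, h2⟩ | ⟨h1, h2⟩
    · refine ⟨F_mem_of_ne K S M hM hx _ _ h1, ?_, ?_⟩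
      · rintro rfl; exact h1 (diag_apply K x _)
      · rintro rfl; exact h2 (diag_apply K y _)
    · refine ⟨F_mem_of_ne K S M hM hy _ _ h1, ?_, ?_⟩
      · rintro rfl; exact h1 (diag_apply K y _)
      · rintro rfl; exact h2 (diag_apply K x _)
  exact hiso c (Ne.symm hc'.2.1) hc'.2.2 (congrArg Fin.val ((hiff _ _).1 (Or.inr hc'.1)).symm)

end Pool.Agent.W2helper84.TN
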