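import Pool.Agent.Results.MP_9adac4_al.SimpleLine

/-!
# Alternating `6 × 6` matrices in characteristic two

`Alt K` is the Lie algebra of the alternating (symmetric with zero diagonal) `6 × 6` matrices over a
field of characteristic two.
-/

set_option autoImplicit false

namespace Pool.Agent.W2helper84.TN

open Pool.Agent.Results.MP_9adac4_al.SimpleLine

attribute [local instance 100] LieRing.ofAssociativeRing

variable (K : Type*) [Field K]

/-- `6 × 6` matrices -/
abbrev Mat : Type _ := Matrix (Fin 6) (Fin 6) K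

variable {K} in
theorem two_eq [CharP K 2] : (2 : K) = 0 := by exact_mod_cast CharP.cast_eq_zero K 2

variable {K} in
theorem add_self_eq [CharP K 2] (a : K) : a + a = 0 := by
  rw [← two_mul, two_eq, zero_mul]

/-- `A` is alternating: symmetric with zero diagonal. -/
def IsAlt {K : Type*} [Field K] (A : Mat K) : Prop := (∀ i j, A i j = A j i) ∧ ∀ i, A i i = 0

variable {K} in
theorem IsAlt.lie [CharP K 2] {A B : Mat K} (hA : IsAlt A) (hB : IsAlt B) : IsAlt ⁅A, B⁆ := by
  obtain ⟨h1, h2⟩ := hA
  obtain ⟨h3, h4⟩ := hB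
  have key : ∀ i j, (A * B) i j = (B * A) j i := by
    intro i j
    rw [Matrix.mul_apply, Matrix.mul_apply]
    exact Finset.sum_congr rfl fun k _ => by rw [h1 i k, h3 k j, mul_comm]
  refine ⟨fun i j => ?_, fun i => ?_⟩
  · rw [Ring.lie_def, Matrix.sub_apply, Matrix.sub_apply, key i j, ← key j i]
    have e1 := add_self_eq ((A * B) j i)
    have e2 := add_self_eq ((B * A) j i)
    linear_combination e2 - e1
  · rw [Ring.lie_def, Matrix.sub_apply, key i i, sub_self]

variable {K} in
theorem IsAlt.add {A B : Mat K} (hA : IsAlt A) (hB : IsAlt B) : IsAlt (A + B) :=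
  ⟨fun i j => by simp [hA.1 i j, hB.1 i j], fun i => by simp [hA.2 i, hB.2 i]⟩

variable {K} in
theorem IsAlt.smul (c : K) {A : Mat K} (hA : IsAlt A) : IsAlt (c • A) :=
  ⟨fun i j => by simp [hA.1 i j], fun i => by simp [hA.2 i]⟩

theorem IsAlt.zero : IsAlt (0 : Mat K) := ⟨fun _ _ => rfl, fun _ => rfl⟩

/-- The Lie algebra of the alternating matrices (bracket `A B - B A`). -/
def Alt [CharP K 2] : LieSubalgebra K (Mat K) where
  carrier := {A | IsAlt A}
  add_mem' := IsAlt.add
  zero_mem' := IsAlt.zero K
  smul_mem' := fun c _ h => IsAlt.smul c h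
  lie_mem' := IsAlt.lie

/-- pairs `i < j` of indices -/
abbrev P : Type := {p : Fin 6 × Fin 6 // p.1 < p.2}

variable [CharP K 2]

/-- the matrix `E_ij + E_ji` -/
def E (p : P) : Alt K :=
  ⟨fun i j => if (i = p.1.1 ∧ j = p.1.2) ∨ (j = p.1.1 ∧ i = p.1.2) then 1 else 0, by
    refine ⟨fun i j => ?_, fun i => ?_⟩
    · simp only [or_comm]
    · have : ¬ ((i = p.1.1 ∧ i = p.1.2) ∨ (i = p.1.1 ∧ i = p.1.2)) := by
        rintro (⟨h1, h2⟩ | ⟨h1, h2⟩) <;> exact absurd (h1.symm.trans h2) p.2.ne
      exact if_neg this⟩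

/-- symmetric matrices -/
def Sym : Submodule K (Mat K) where
  carrier := {A | ∀ i j, A i j = A j i}
  add_mem' := fun h1 h2 i j => by simp [h1 i j, h2 i j]
  zero_mem' := fun i j => rfl
  smul_mem' := fun c A h1 i j => by simp [h1 i j]

/-- The derivation `x ↦ A x - x A` of `Alt K` for a symmetric matrix `A`. -/
def rho : Sym K →ₗ[K] Module.End K (Alt K) where
  toFun A :=
    { toFun := fun x => ⟨A.1 * x.1 - x.1 * A.1, by
        have key : ∀ i j, (A.1 * x.1) i j = (x.1 * A.1) j i := by
          intro i j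
          rw [Matrix.mul_apply, Matrix.mul_apply]
          exact Finset.sum_congr rfl fun k _ => by rw [A.2 i k, x.2.1 k j, mul_comm]
        refine ⟨fun i j => ?_, fun i => ?_⟩
        · rw [Matrix.sub_apply, Matrix.sub_apply, key i j, ← key j i]
          have e1 := add_self_eq ((A.1 * x.1) j i)
          have e2 := add_self_eq ((x.1 * A.1) j i)
          linear_combination e2 - e1
        · rw [Matrix.sub_apply, key i i, sub_self]⟩
      map_add' := fun x y => Subtype.ext (by simp [mul_add, add_mul]; abel)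
      map_smul' := fun c x => Subtype.ext (by simp [smul_sub]) }
  map_add' A B := by
    ext x : 2
    simp [mul_add, add_mul]; abel
  map_smul' c A := by
    ext x : 2
    simp [smul_sub]

theorem rho_coe (A : Sym K) (x : Alt K) : (rho K A x).1 = A.1 * x.1 - x.1 * A.1 := rfl

/-- **Piece SIM.** The Lie algebra of the alternating `6 × 6` matrices is simple. -/
def StmSIM : Prop := LieAlgebra.IsSimple K (Alt K)

/-- **Piece GRD.** A simple subalgebra spanned by matrices `E_ij + E_ji` consists of the alternating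
matrices which vanish outside `A × A`, for a set `A` of indices. -/
def StmGRD : Prop := ∀ (S : Set P) (M : LieSubalgebra K (Alt K)),
  M.toSubmodule = Submodule.span K (E K '' S) → LieAlgebra.IsSimple K M →
    ∃ A : Finset (Fin 6), 3 ≤ A.card ∧ Module.finrank K M = A.card.choose 2 ∧
      ∀ p : P, p ∈ S ↔ (p.1.1 ∈ A ∧ p.1.2 ∈ A)

/-- **Piece COM.** Commuting semisimple matrices with trace zero. -/
def StmCOM : Prop := IsAlgClosed K → ∀ N : Submodule K (Mat K),
  (∀ A ∈ N, ∀ B ∈ N, A * B = B * A) → (∀ A ∈ N, Module.End.IsSemisimple (Matrix.toLin' A)) →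
    (∀ A ∈ N, A.trace = 0) → Module.finrank K N ≤ 5

/-- **Piece ADS.** If `x ↦ A x - x A` is semisimple on the alternating matrices then `A` is
semisimple. -/
def StmADS : Prop := IsAlgClosed K → ∀ A : Sym K, Module.End.IsSemisimple (rho K A) →
  Module.End.IsSemisimple (Matrix.toLin' A.1)

/-- **Piece LIE.** The 2-envelope is contained in the image of the symmetric matrices with trace
zero. -/
def StmLIE : Prop := ∀ f ∈ twoEnvelope K (Alt K), ∃ A : Sym K, A.1.trace = 0 ∧ rho K A = f

/-- **Piece KER.** The kernel of `rho` consists of scalar matrices. -/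
def StmKER : Prop := ∀ A : Sym K, rho K A = 0 → ∃ c : K, A.1 = c • (1 : Mat K)

/-- (assembly of COM, ADS, LIE, KER) -/
def StmTOR : Prop := IsAlgClosed K → ∀ T : Submodule K (Module.End K (Alt K)),
  IsTorus K (Alt K) T → Module.finrank K T ≤ 4

end Pool.Agent.W2helper84.TN
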