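import Pool.Agent.W2helper84.TN.Bas

/-!
# The thin decomposition
-/

set_option autoImplicit false

namespace Pool.Agent.W2helper84.TN

open Pool.Agent.Results.MP_9adac4_al.SimpleLine

attribute [local instance 100] LieRing.ofAssociativeRing

variable (K : Type*) [Field K] [CharP K 2]

theorem emb_lt (k : Fin 4) : emb k < 4 := by revert k; decide

/-- the square of `E_k4` is the diagonal matrix `E_kk + E_44` -/
theorem E_sq (k : Fin 4) : (E K ⟨(emb k, 4), emb_lt k⟩).1 * (E K ⟨(emb k, 4), emb_lt k⟩).1 =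
    (D K k).1 := by
  have hne : emb k ≠ 4 := (emb_lt k).ne
  funext i j
  change _ = Matrix.diagonal (dg K k) i j
  rw [Matrix.mul_apply, Matrix.diagonal_apply]
  have hE : ∀ a b, (E K ⟨(emb k, 4), emb_lt k⟩).1 a b =
      if (a = emb k ∧ b = 4) ∨ (b = emb k ∧ a = 4) then 1 else 0 := fun a b => rfl
  simp only [hE]
  by_cases h1 : i = emb k
  · subst h1
    rw [Finset.sum_eq_single 4]
    · by_cases h2 : emb k = j
      · subst h2; simp [dg, hne]
      · have : j ≠ emb k := Ne.symm h2
        simp [hne, h2, this]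
        intro h; exact absurd h.symm hne
    · intro b _ hb
      simp [hb, hne]
    · simp
  · by_cases h2 : i = 4
    · subst h2
      rw [Finset.sum_eq_single (emb k)]
      · by_cases h3 : 4 = j
        · subst h3; simp [dg]
        · have : j ≠ 4 := Ne.symm h3
          simp [hne, h3, this, Ne.symm hne]
      · intro b _ hb
        simp [hb, Ne.symm hne]
      · simp
    · rw [Finset.sum_eq_zero]
      · split_ifs
        · simp [dg, h1, h2]
        · rfl
      · intro b _
        simp [h1, h2]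

theorem tt_mem (k : Fin 4) : tt K k ∈ twoEnvelope K (Alt K) := by
  have h : tt K k = LieAlgebra.ad K (Alt K) (E K ⟨(emb k, 4), emb_lt k⟩) *
      LieAlgebra.ad K (Alt K) (E K ⟨(emb k, 4), emb_lt k⟩) := by
    rw [rho_alt, rho_sq K _ (D K k) (E_sq K k).symm, tt]
  rw [h, twoEnvelope, Submodule.mem_sInf]
  intro M hM
  exact hM.2.2 _ (hM.1 _)

theorem emb_lt5 (k : Fin 4) : emb k < 5 := by revert k; decide

theorem tt_li : LinearIndependent K (tt K) := by
  rw [Fintype.linearIndependent_iff]
  intro g hg i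
  have h1 := LinearMap.congr_fun hg (E K ⟨(emb i, 5), emb_lt5 i⟩)
  rw [LinearMap.sum_apply, LinearMap.zero_apply] at h1
  have hw : ∀ i k : Fin 4, wt0 ⟨(emb i, 5), emb_lt5 i⟩ k = if k = i then 1 else 0 := by decide
  rw [Finset.sum_eq_single i] at h1
  · rw [LinearMap.smul_apply, tt_E, hw i i, if_pos rfl, if_neg one_ne_zero] at h1
    have h2 : (bas K ⟨(emb i, 5), emb_lt5 i⟩) ≠ 0 := (bas K).ne_zero _
    rw [bas_apply] at h2
    exact (smul_eq_zero.1 h1).resolve_right h2
  · intro k _ hk
    rw [LinearMap.smul_apply, tt_E, hw i k, if_neg hk, if_pos rfl, smul_zero]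
  · simp

/-- the diagonal endomorphisms -/
def Dia : Submodule K (Module.End K (Alt K)) where
  carrier := {f | ∀ p, ∃ μ : K, f (E K p) = μ • E K p}
  add_mem' := by
    intro f g hf hg p
    obtain ⟨μ, hμ⟩ := hf p
    obtain ⟨ν, hν⟩ := hg p
    exact ⟨μ + ν, by rw [LinearMap.add_apply, hμ, hν, add_smul]⟩
  zero_mem' := fun p => ⟨0, by simp⟩
  smul_mem' := by
    intro a f hf p
    obtain ⟨μ, hμ⟩ := hf p
    exact ⟨a * μ, by rw [LinearMap.smul_apply, hμ, smul_smul]⟩

theorem span_le_Dia : Submodule.span K (Set.range (tt K)) ≤ Dia K := by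
  rw [Submodule.span_le]
  rintro _ ⟨k, rfl⟩ p
  rw [tt_E]
  split_ifs
  · exact ⟨0, by simp⟩
  · exact ⟨1, by simp⟩

theorem Dia_comm {f g : Module.End K (Alt K)} (hf : f ∈ Dia K) (hg : g ∈ Dia K) :
    f * g = g * f := by
  apply (bas K).ext
  intro p
  rw [bas_apply]
  obtain ⟨μ, hμ⟩ := hf p
  obtain ⟨ν, hν⟩ := hg p
  rw [Module.End.mul_apply, Module.End.mul_apply, hμ, hν, map_smul, map_smul, hμ, hν, smul_smul,
    smul_smul, mul_comm]

theorem Dia_semisimple {f : Module.End K (Alt K)} (hf : f ∈ Dia K) :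
    Module.End.IsSemisimple f := by
  classical
  choose μ hμ using hf
  let s : Finset K := Finset.univ.image μ
  apply Module.End.isSemisimple_of_squarefree_aeval_eq_zero
    (p := ∏ a ∈ s, (Polynomial.X - Polynomial.C a))
  · apply Polynomial.Separable.squarefree
    rw [Polynomial.separable_prod_X_sub_C_iff']
    intro x _ y _ hxy
    exact hxy
  · apply (bas K).ext
    intro p
    rw [LinearMap.zero_apply, bas_apply]
    have hp : μ p ∈ s := Finset.mem_image_of_mem _ (Finset.mem_univ _)
    rw [← Finset.prod_erase_mul s _ hp, map_mul, Module.End.mul_apply]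
    have : (Polynomial.aeval f (Polynomial.X - Polynomial.C (μ p))) (E K p) = 0 := by
      simp [hμ]
    rw [this, map_zero]

theorem exists_third : ∀ k i : Fin 6, k ≠ i → ∃ j : Fin 6, j ≠ k ∧ j ≠ i := by decide

/-- An alternating matrix acting diagonally is zero. -/
theorem eq_zero_of_Dia (x : Alt K) (hx : LieAlgebra.ad K (Alt K) x ∈ Dia K) : x = 0 := by
  apply Subtype.ext
  funext k i
  by_cases hki : k = i
  · subst hki; exact x.2.2 k
  obtain ⟨j, hjk, hji⟩ := exists_third k i hki
  -- the pair `{i, j}`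
  have hE : ∃ p : P, ∀ a b, (E K p).1 a b = if (a = i ∧ b = j) ∨ (b = i ∧ a = j) then 1 else 0 := by
    rcases lt_or_gt_of_ne hji with h | h
    · refine ⟨⟨(j, i), h⟩, fun a b => ?_⟩
      change (if (a = j ∧ b = i) ∨ (b = j ∧ a = i) then (1 : K) else 0) = _
      congr 1
      exact propext ⟨fun h => h.symm.imp And.symm And.symm, fun h => h.symm.imp And.symm And.symm⟩
    · exact ⟨⟨(i, j), h⟩, fun a b => rfl⟩
  obtain ⟨p, hp⟩ := hE
  obtain ⟨μ, hμ⟩ := hx p
  have h1 := congrArg (fun z : Alt K => z.1 k j) hμ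
  rw [rho_alt] at h1
  simp only [rho_coe] at h1
  have h2 : (μ • E K p : Alt K).1 k j = μ * (E K p).1 k j := rfl
  rw [h2, Matrix.sub_apply, Matrix.mul_apply, Matrix.mul_apply, hp] at h1
  rw [Finset.sum_eq_single i, Finset.sum_eq_zero] at h1
  · rw [hp] at h1
    simpa [hki, Ne.symm hjk, hji] using h1
  · intro b _
    rw [hp, if_neg, zero_mul]
    rintro (⟨h, _⟩ | ⟨_, h⟩)
    · exact hki h
    · exact hjk h.symm
  · intro b _ hb
    rw [hp, if_neg, mul_zero]
    rintro (⟨h, _⟩ | ⟨h, _⟩)
    · exact hb h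
    · exact hji h
  · simp

/-- The thin decomposition of the Lie algebra of alternating matrices. -/
noncomputable def thin (hTOR : StmTOR K) (hK : IsAlgClosed K) : ThinDecomposition K (Alt K) 4 where
  t := tt K
  e := basW K
  linearIndependent := tt_li K
  isTorus := by
    refine ⟨?_, fun f hf g hg => Dia_comm K (span_le_Dia K hf) (span_le_Dia K hg),
      fun f hf => Dia_semisimple K (span_le_Dia K hf)⟩
    rw [Submodule.span_le]
    rintro _ ⟨k, rfl⟩
    exact tt_mem K k
  sq := by
    intro k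
    apply (bas K).ext
    intro p
    rw [bas_apply, Module.End.mul_apply, tt_E]
    by_cases h : wt0 p k = 0
    · rw [if_pos h, map_zero]
    · rw [if_neg h, tt_E, if_neg h]
  disjoint := by
    intro x hx
    rw [eq_zero_of_Dia K x (span_le_Dia K hx), map_zero]
  toralRank := hTOR hK
  weight := tt_basW K

end Pool.Agent.W2helper84.TN
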